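import Pool.Agent.R652.CERed

set_option autoImplicit false

namespace Pool.Agent.Results.MP_f76ce6_lc.SameDegreeForAllRanks

open Pool.Agent.R652.RE Pool.Agent.R652.CE

/-- There is a nontrivial variety such that for every `n ≥ 1` the isomorphism relations of the
`n`-generated and of the `(n+1)`-generated c.e. members are computably bireducible, and they are
strictly below every `Σ⁰₃`-complete equivalence relation. -/
theorem result : ∃ V : Variety, V.IsNontrivial ∧ ∀ n : ℕ, 1 ≤ n →
    (CRed (V.isoRel n) (V.isoRel (n + 1)) ∧ CRed (V.isoRel (n + 1)) (V.isoRel n)) ∧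
    (∀ E : ℕ → ℕ → Prop, Sigma3Complete E →
      CRed (V.isoRel n) E ∧ ¬ CRed E (V.isoRel n)) ∧
    ¬ Sigma3Complete (V.isoRel n) ∧
    CRed (V.isoRel n) EqCE ∧ CRed EqCE (V.isoRel n) := by
  refine ⟨VA, VA_nontrivial, fun n _ => ⟨⟨?_, ?_⟩, ?_, ?_, ?_, ?_⟩⟩
  · exact (isoRel_red comp_allC n).trans (red_isoRel (n + 1))
  · exact (isoRel_red comp_allC (n + 1)).trans (red_isoRel n)
  · intro E hE
    refine ⟨hE.2.2 _ (isoRel_equivalence VA n)
      (Sigma3.of_red (isoRel_red comp_allC n) eqCE_sigma3), fun h => ?_⟩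
    exact not_complete_of_red (isoRel_red comp_allC n) ⟨isoRel_equivalence VA n,
      Sigma3.of_red (isoRel_red comp_allC n) eqCE_sigma3,
      fun F hF hF' => (hE.2.2 F hF hF').trans h⟩
  · exact not_complete_of_red (isoRel_red comp_allC n)
  · exact isoRel_red comp_allC n
  · exact red_isoRel n

end Pool.Agent.Results.MP_f76ce6_lc.SameDegreeForAllRanks
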